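import Mathlib
import Pool.Agent.H23.Gen1

set_option autoImplicit false

namespace Pool.Agent.Results.MP_1308e3_lc.LowReal

open Pool.Agent.H23 Pool.Agent.H23.RE Pool.Agent.H23.TNF Pool.Agent.H23.Rel Finset Filter Topology
open Classical

/-- `e` presents the field `K` as a computable field: it identifies `K` with a computable set of
naturals on which addition and multiplication are computable. -/
def CompField {K : Type} [Field K] (e : K → ℕ) : Prop :=
  Function.Injective e ∧ ComputablePred (· ∈ Set.range e) ∧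
    ∃ A M : ℕ → ℕ → ℕ, Computable₂ A ∧ Computable₂ M ∧
      ∀ x y, e (x + y) = A (e x) (e y) ∧ e (x * y) = M (e x) (e y)

/-- The ordering of `K` as a set of codes of pairs. -/
def Ord {K : Type} [LT K] (e : K → ℕ) : Set ℕ := {n | ∃ a b, a < b ∧ n = Nat.pair (e a) (e b)}

/-- Low sets. -/
def Low (X : Set ℕ) : Prop := TuringReducible (chi (jump X) : ℕ →. ℕ) (chi (jump ∅) : ℕ →. ℕ)

noncomputable def ev (l : List ℕ) (x : ℝ) : ℝ := ∑ i ∈ range l.length, (l.getD i 0 : ℝ) * x ^ i

theorem ev_eq (l : List ℕ) (x : ℝ) {n : ℕ} (h : l.length ≤ n) :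
    ev l x = ∑ i ∈ range n, (l.getD i 0 : ℝ) * x ^ i :=
  sum_subset (range_subset_range.2 h) fun i _ hi => by
    rw [List.getD_eq_default _ _ (by simpa using hi)]; simp

theorem ev_cons (c : ℕ) (l : List ℕ) (x : ℝ) : ev (c :: l) x = c + x * ev l x := by
  simp only [ev, List.length_cons, sum_range_succ', List.getD_cons_succ, List.getD_cons_zero,
    mul_sum, pow_succ]
  rw [add_comm]
  congr 1
  · simp
  · exact sum_congr rfl fun _ _ => by ring

def addL (a b : List ℕ) : List ℕ :=
  (List.range (a.length + b.length)).map fun i => a.getD i 0 + b.getD i 0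

theorem ev_add (a b : List ℕ) (x : ℝ) : ev (addL a b) x = ev a x + ev b x := by
  rw [ev_eq a x (Nat.le_add_right _ b.length), ev_eq b x (Nat.le_add_left _ a.length), ev,
    ← sum_add_distrib]
  simp only [addL, List.length_map, List.length_range]
  refine sum_congr rfl fun i hi => ?_
  rw [List.getD_eq_getElem _ _ (by simpa using hi)]
  simp [add_mul]

def mulL (a b : List ℕ) : List ℕ := a.foldr (fun c s => addL (b.map (c * ·)) (0 :: s)) []

theorem ev_mul (a b : List ℕ) (x : ℝ) : ev (mulL a b) x = ev a x * ev b x := by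
  induction a with
  | nil => simp [mulL, ev]
  | cons c a ih =>
    have : ev (b.map (c * ·)) x = c * ev b x := by
      induction b with
      | nil => simp [ev]
      | cons d b _ =>
        clear * -
        induction (d :: b) with
        | nil => simp [ev]
        | cons d b ih => simp only [List.map_cons, ev_cons, ih]; push_cast; ring
    rw [mulL, List.foldr_cons, ev_add, this, ev_cons, ev_cons, ← mulL, ih]
    push_cast; ring

def eqL (a b : List ℕ) : Bool := (List.range (a.length + b.length)).all fun i => a.getD i 0 == b.getD i 0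

def val (τ : List ℕ) : ℕ := τ.foldl (fun a b => 2 * a + b) 0

def H (l : List ℕ) (m q L : ℕ) : ℕ :=
  ((List.range l.length).map fun i => l.getD i 0 * m ^ i * q ^ (L - i)).foldr (· + ·) 0

def cert (a b τ : List ℕ) : Bool :=
  Nat.blt (H b (val τ + 1) (2 ^ τ.length) (a.length + b.length))
    (H a (val τ) (2 ^ τ.length) (a.length + b.length))

noncomputable def lo (τ : List ℕ) : ℝ := val τ / 2 ^ τ.length
noncomputable def hi (τ : List ℕ) : ℝ := (val τ + 1) / 2 ^ τ.length

theorem H_eq (l : List ℕ) (m q L : ℕ) (h : l.length ≤ L) (hq : 0 < q) :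
    (H l m q L : ℝ) = ev l (m / q) * q ^ L := by
  rw [ev, sum_mul, show H l m q L = ∑ i ∈ range l.length, l.getD i 0 * m ^ i * q ^ (L - i) from rfl]
  push_cast
  refine sum_congr rfl fun i hi => ?_
  obtain ⟨d, rfl⟩ := Nat.exists_eq_add_of_le ((mem_range.1 hi).le.trans h)
  rw [Nat.add_sub_cancel_left, pow_add, div_pow]
  field_simp

theorem cert_iff (a b τ : List ℕ) : cert a b τ = true ↔ ev b (hi τ) < ev a (lo τ) := by
  rw [cert, Nat.blt_eq, ← Nat.cast_lt (α := ℝ), H_eq _ _ _ _ (by omega) (by positivity),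
    H_eq _ _ _ _ (by omega) (by positivity), mul_lt_mul_iff_left₀ (by positivity)]
  simp [lo, hi]

theorem ev_mono (l : List ℕ) {x y : ℝ} (h0 : 0 ≤ x) (h : x ≤ y) : ev l x ≤ ev l y :=
  sum_le_sum fun _ _ => by gcongr

theorem cert_lim {a b : List ℕ} {r : ℝ} (h : ev b r < ev a r) (u : ℕ → List ℕ)
    (h1 : ∀ k, k ≤ (u k).length) (h2 : ∀ k, lo (u k) ≤ r ∧ r ≤ hi (u k)) :
    ∃ k, cert a b (u k) = true := by
  have c : ∀ l, Continuous (ev l) := fun l => by unfold ev; fun_prop
  have t : Tendsto (fun k : ℕ => (1 / 2 : ℝ) ^ k) atTop (𝓝 0) :=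
    tendsto_pow_atTop_nhds_zero_of_lt_one (by norm_num) (by norm_num)
  have e : ∀ k, hi (u k) - lo (u k) ≤ (1 / 2) ^ k := fun k => by
    rw [hi, lo, ← sub_div, add_sub_cancel_left, one_div_pow]
    exact one_div_le_one_div_of_le (by positivity) (pow_le_pow_right₀ (by norm_num) (h1 k))
  have t1 : Tendsto (fun k => lo (u k)) atTop (𝓝 r) :=
    tendsto_of_tendsto_of_tendsto_of_le_of_le (by simpa using t.const_sub r) tendsto_const_nhds
      (fun k => by have := e k; have := h2 k; simp only [one_div, inv_pow] at *; linarith)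
      fun k => (h2 k).1
  have t2 : Tendsto (fun k => hi (u k)) atTop (𝓝 r) :=
    tendsto_of_tendsto_of_tendsto_of_le_of_le tendsto_const_nhds (by simpa using t.const_add r)
      (fun k => (h2 k).2)
      fun k => by have := e k; have := h2 k; simp only [one_div, inv_pow] at *; linarith
  exact ((((c b).tendsto r).comp t2).eventually_lt (((c a).tendsto r).comp t1) h).exists.imp
    fun k hk => (cert_iff _ _ _).2 hk

theorem val_snoc (τ : List ℕ) (b : ℕ) : val (τ ++ [b]) = 2 * val τ + b := by simp [val]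

theorem lo_snoc (τ : List ℕ) (b : ℕ) : lo (τ ++ [b]) = lo τ + b / 2 ^ (τ.length + 1) := by
  simp only [lo, val_snoc, List.length_append, List.length_singleton, pow_succ]
  push_cast; field_simp

theorem hi_eq (τ : List ℕ) : hi τ = lo τ + 1 / 2 ^ τ.length := by rw [hi, lo, add_div]

theorem lo_zero (τ : List ℕ) (k : ℕ) : lo (τ ++ List.replicate k 0) = lo τ := by
  induction k with
  | zero => simp
  | succ k ih => rw [List.replicate_succ', ← List.append_assoc, lo_snoc, ih]; simp

theorem dense (a b : List ℕ) (h : eqL a b = false) (σ : List ℕ) :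
    ∃ ρ, (∀ c ∈ ρ, c ≤ 1) ∧ (cert a b (σ ++ ρ) || cert b a (σ ++ ρ)) = true := by
  let P : Polynomial ℝ := ∑ i ∈ range (a.length + b.length),
    Polynomial.monomial i ((a.getD i 0 : ℝ) - b.getD i 0)
  have p1 : P ≠ 0 := fun e => by
    rw [← Bool.not_eq_true, eqL, List.all_eq_true] at h
    refine h fun i hi => ?_
    have := congrArg (·.coeff i) e
    simp only [P, Polynomial.finsetSum_coeff, Polynomial.coeff_monomial, sum_ite_eq', mem_range,
      List.mem_range.1 hi, if_true, Polynomial.coeff_zero, sub_eq_zero, Nat.cast_inj] at this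
    exact beq_iff_eq.2 this
  have p2 : ∀ x, P.eval x = ev a x - ev b x := fun x => by
    rw [ev_eq a x (Nat.le_add_right _ b.length), ev_eq b x (Nat.le_add_left _ a.length),
      ← sum_sub_distrib]
    simp [P, Polynomial.eval_finsetSum]
  obtain ⟨j, hj⟩ : ∃ j, ¬ P.IsRoot (lo (σ ++ List.replicate j 0 ++ [1])) := by
    by_contra h
    push Not at h
    refine Set.infinite_of_injective_forall_mem (fun i j e => ?_) h (P.finite_setOfPred_isRoot p1)
    simp only [lo_snoc, lo_zero, add_right_inj, Nat.cast_one, List.length_append,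
      List.length_replicate, one_div, inv_inj] at e
    have := pow_right_injective₀ (by norm_num) (by norm_num) e
    omega
  have k : ∀ a b, ev b (lo (σ ++ List.replicate j 0 ++ [1])) <
      ev a (lo (σ ++ List.replicate j 0 ++ [1])) → ∃ ρ, (∀ c ∈ ρ, c ≤ 1) ∧
        cert a b (σ ++ ρ) = true := fun a b h => by
    obtain ⟨k, hk⟩ := cert_lim h (fun k => σ ++ List.replicate j 0 ++ [1] ++ List.replicate k 0)
      (fun k => by simp; omega) fun k => by
        rw [hi_eq, lo_zero]; exact ⟨le_rfl, le_add_of_nonneg_right (by positivity)⟩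
    refine ⟨List.replicate j 0 ++ [1] ++ List.replicate k 0, fun c hc => ?_, by
      simpa only [List.append_assoc] using hk⟩
    simp only [List.mem_append, List.mem_replicate, List.mem_singleton] at hc
    omega
  rw [Polynomial.IsRoot, p2, sub_eq_zero] at hj
  rcases lt_or_gt_of_ne hj with h | h
  · exact (k _ _ h).imp fun ρ h => ⟨h.1, by simp [h.2]⟩
  · exact (k _ _ h).imp fun ρ h => ⟨h.1, by simp [h.2]⟩

theorem exists_real {f : ℕ → ℕ} (h : ∀ x, f x ≤ 1) :
    ∃ r : ℝ, ∀ k, lo (pre f k) ≤ r ∧ r ≤ hi (pre f k) := by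
  have m1 : Monotone fun k => lo (pre f k) := monotone_nat_of_le_succ fun k => by
    rw [pre_succ, lo_snoc]; exact le_add_of_nonneg_right (by positivity)
  have m2 : Antitone fun k => hi (pre f k) := antitone_nat_of_succ_le fun k => by
    have : (f k : ℝ) ≤ 1 := by exact_mod_cast h k
    rw [hi_eq, hi_eq, pre_succ, lo_snoc, List.length_append, List.length_singleton, add_assoc,
      ← add_div, pow_succ]
    refine add_le_add_right ?_ _
    rw [div_le_div_iff₀ (by positivity) (by positivity)]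
    nlinarith [show (0 : ℝ) < 2 ^ (pre f k).length by positivity]
  have : ∀ i j, lo (pre f i) ≤ hi (pre f j) := fun i j => (m1 (le_max_left i j)).trans
    (le_trans ((le_add_of_nonneg_right (by positivity)).trans_eq (hi_eq _).symm)
      (m2 (le_max_right i j)))
  exact ⟨⨆ k, lo (pre f k), fun k => ⟨le_ciSup ⟨_, Set.forall_mem_range.2 fun i => this i 0⟩ k,
    ciSup_le fun i => this i k⟩⟩

abbrev Z := List ℕ × List ℕ

noncomputable def evZ (r : ℝ) (z : Z) : ℝ := ev z.1 r - ev z.2 r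
def addZ (x y : Z) : Z := (addL x.1 y.1, addL x.2 y.2)
def mulZ (x y : Z) : Z := (addL (mulL x.1 y.1) (mulL x.2 y.2), addL (mulL x.1 y.2) (mulL x.2 y.1))
def crs (p q : Z × Z) : Z := addZ (mulZ q.1 p.2) (mulZ p.1 q.2).swap

theorem evZ_add (r : ℝ) (x y : Z) : evZ r (addZ x y) = evZ r x + evZ r y := by
  simp only [evZ, addZ, ev_add]; ring
theorem evZ_mul (r : ℝ) (x y : Z) : evZ r (mulZ x y) = evZ r x * evZ r y := by
  simp only [evZ, mulZ, ev_add, ev_mul]; ring
theorem evZ_swap (r : ℝ) (x : Z) : evZ r x.swap = - evZ r x := by simp [evZ]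
theorem evZ_crs (r : ℝ) (p q : Z × Z) :
    evZ r (crs p q) = evZ r q.1 * evZ r p.2 - evZ r p.1 * evZ r q.2 := by
  rw [crs, evZ_add, evZ_swap, evZ_mul, evZ_mul, sub_eq_add_neg]

@[fun_prop] theorem pr_addL {α : Type} [Primcodable α] {f g : α → List ℕ} (hf : Primrec f)
    (hg : Primrec g) : Primrec fun a => addL (f a) (g a) := by unfold addL; fun_prop
@[fun_prop] theorem pr_mulL {α : Type} [Primcodable α] {f g : α → List ℕ} (hf : Primrec f)
    (hg : Primrec g) : Primrec fun a => mulL (f a) (g a) := by unfold mulL; fun_prop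
@[fun_prop] theorem pr_eqL {α : Type} [Primcodable α] {f g : α → List ℕ} (hf : Primrec f)
    (hg : Primrec g) : Primrec fun a => eqL (f a) (g a) := by unfold eqL; fun_prop
@[fun_prop] theorem pr_val {α : Type} [Primcodable α] {f : α → List ℕ} (hf : Primrec f) :
    Primrec fun a => val (f a) := by unfold val; fun_prop
@[fun_prop] theorem pr_cert {α : Type} [Primcodable α] {f g h : α → List ℕ} (hf : Primrec f)
    (hg : Primrec g) (hh : Primrec h) : Primrec fun a => cert (f a) (g a) (h a) := by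
  unfold cert H; fun_prop
@[fun_prop] theorem pr_addZ {α : Type} [Primcodable α] {f g : α → Z} (hf : Primrec f)
    (hg : Primrec g) : Primrec fun a => addZ (f a) (g a) := by unfold addZ; fun_prop
@[fun_prop] theorem pr_mulZ {α : Type} [Primcodable α] {f g : α → Z} (hf : Primrec f)
    (hg : Primrec g) : Primrec fun a => mulZ (f a) (g a) := by unfold mulZ; fun_prop
@[fun_prop] theorem pr_crs {α : Type} [Primcodable α] {f g : α → Z × Z} (hf : Primrec f)
    (hg : Primrec g) : Primrec fun a => crs (f a) (g a) := by unfold crs Prod.swap; fun_prop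

theorem mem_ord {K : Type} [LT K] {e : K → ℕ} (h : Function.Injective e) (a b : K) :
    Nat.pair (e a) (e b) ∈ Ord e ↔ a < b :=
  ⟨fun ⟨_, _, x, y⟩ => by
    obtain ⟨y1, y2⟩ := Nat.pair_eq_pair.1 y
    rwa [h y1, h y2], fun x => ⟨a, b, x, rfl⟩⟩

theorem result : ∃ (K : Type) (_ : Field K) (_ : LinearOrder K) (_ : IsStrictOrderedRing K)
    (e : K → ℕ), CompField e ∧ Low (Ord e) ∧
      ∀ (L : Type) [Field L] [LinearOrder L] [IsStrictOrderedRing L] (_ : K ≃+*o L) (e' : L → ℕ),
        CompField e' → ¬ ComputablePred (· ∈ Ord e') := by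
  obtain ⟨f, f1, f2, f3, f4⟩ := low_generic
  obtain ⟨r, hr⟩ := exists_real f1
  have lo0 : ∀ τ, 0 ≤ lo τ := fun τ => by unfold lo; positivity
  have c1 : ∀ a b k, cert a b (pre f k) = true → ev b r < ev a r := fun a b k h =>
    ((ev_mono b ((lo0 _).trans (hr k).1) (hr k).2).trans_lt ((cert_iff _ _ _).1 h)).trans_le
      (ev_mono a (lo0 _) (hr k).1)
  have pos : ∀ z : Z, 0 < evZ r z ↔ ∃ k, cert z.1 z.2 (pre f k) = true := fun z =>
    ⟨fun h => cert_lim (sub_pos.1 h) _ (fun k => by simp) hr, fun ⟨k, h⟩ => sub_pos.2 (c1 _ _ k h)⟩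
  have hz : ∀ z : Z, eqL z.1 z.2 = true ↔ evZ r z = 0 := fun z => by
    refine ⟨fun h => ?_, fun h => ?_⟩
    · rw [evZ, ev_eq z.1 r (Nat.le_add_right _ z.2.length),
        ev_eq z.2 r (Nat.le_add_left _ z.1.length), sub_eq_zero]
      refine sum_congr rfl fun i hi => ?_
      rw [beq_iff_eq.1 (List.all_eq_true.1 h i (by simpa using hi))]
    · by_contra g
      obtain ⟨k, hk⟩ := f4 (fun τ => (cert z.1 z.2 τ || cert z.2 z.1 τ) = true)
        (re_prim (by fun_prop)) fun σ _ => dense _ _ (by simpa using g) σ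
      rcases Bool.or_eq_true _ _ ▸ hk with a | a
      exacts [(c1 _ _ _ a).ne' (sub_eq_zero.1 h), (c1 _ _ _ a).ne (sub_eq_zero.1 h)]
  have one : evZ r ([1], []) = 1 := by simp [evZ, ev]
  obtain ⟨d, d1, d2, d3⟩ : ∃ d : ℕ → Z × Z, Primrec d ∧ (∀ n, evZ r (d n).2 ≠ 0) ∧
      ∀ p : Z × Z, evZ r p.2 ≠ 0 → ∃ n, d n = p := by
    obtain ⟨d, d1, d2⟩ : ∃ d : ℕ → Z × Z, Primrec d ∧ Function.Surjective d :=
      ⟨_, Primrec.ofNat _, (Denumerable.eqv _).symm.surjective⟩
    refine ⟨fun n => bif eqL (d n).2.1 (d n).2.2 then (([1], []), ([1], [])) else d n,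
      by fun_prop, fun n => ?_, fun p hp => (d2 p).imp fun n h => ?_⟩
    · cases h : eqL (d n).2.1 (d n).2.2
      · exact fun a => by simpa [h] using (hz _).2 a
      · simp [h, one]
    · beta_reduce
      rw [h, Bool.eq_false_iff.2 ((hz _).not.2 hp)]; rfl
  let Q : Z × Z → ℝ := fun p => evZ r p.1 / evZ r p.2
  let ad : Z × Z → Z × Z → Z × Z := fun p q => (addZ (mulZ p.1 q.2) (mulZ p.2 q.1), mulZ p.2 q.2)
  let mu : Z × Z → Z × Z → Z × Z := fun p q => (mulZ p.1 q.1, mulZ p.2 q.2)
  have nz : ∀ a b, evZ r (mulZ (d a).2 (d b).2) ≠ 0 := fun a b => by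
    rw [evZ_mul]; exact mul_ne_zero (d2 a) (d2 b)
  have qa : ∀ a b, Q (ad (d a) (d b)) = Q (d a) + Q (d b) := fun a b => by
    simp only [Q, ad, evZ_add, evZ_mul, div_add_div _ _ (d2 a) (d2 b)]
  have qm : ∀ a b, Q (mu (d a) (d b)) = Q (d a) * Q (d b) := fun a b => by
    simp only [Q, mu, evZ_mul, div_mul_div_comm]
  have mem : ∀ p : Z × Z, evZ r p.2 ≠ 0 → ∃ n, Q (d n) = Q p := fun p h =>
    (d3 p h).imp fun n h => congrArg Q h
  have qe : ∀ n (p : Z × Z), evZ r p.2 ≠ 0 →
      (eqL (crs (d n) p).1 (crs (d n) p).2 = true ↔ Q (d n) = Q p) := fun n p h => by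
    rw [hz, evZ_crs, sub_eq_zero, div_eq_div_iff (d2 n) h, eq_comm]
  let K : Subfield ℝ :=
    { carrier := Set.range fun n => Q (d n)
      mul_mem' := by rintro _ _ ⟨a, rfl⟩ ⟨b, rfl⟩; exact qm a b ▸ mem _ (nz a b)
      add_mem' := by rintro _ _ ⟨a, rfl⟩ ⟨b, rfl⟩; exact qa a b ▸ mem _ (nz a b)
      one_mem' := by simpa [Q, one] using mem (([1], []), ([1], [])) (by simp [one])
      zero_mem' := by simpa [Q, evZ] using mem (([], []), ([1], [])) (by simp [one])
      neg_mem' := by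
        rintro _ ⟨a, rfl⟩
        simpa [Q, evZ_swap, neg_div] using mem ((d a).1.swap, (d a).2) (d2 a)
      inv_mem' := by
        rintro _ ⟨a, rfl⟩
        by_cases h : evZ r (d a).1 = 0
        · exact ⟨a, by simp [Q, h]⟩
        · simpa [Q] using mem ((d a).2, (d a).1) h }
  let e : K → ℕ := fun x => Nat.find x.2
  have e1 : ∀ x, Q (d (e x)) = x := fun x => Nat.find_spec x.2
  have e2 : Function.Injective e := fun x y h => Subtype.ext (by rw [← e1, h, e1])
  let rg : ℕ → Bool := fun n => (List.range n).all fun m =>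
    !eqL (crs (d m) (d n)).1 (crs (d m) (d n)).2
  have rg1 : Primrec rg := by fun_prop
  have e3 : ∀ n, n ∈ Set.range e ↔ rg n = true := fun n => by
    simp only [rg, List.all_eq_true, List.mem_range, Bool.not_eq_true', Bool.eq_false_iff,
      ne_eq, qe _ _ (d2 n)]
    exact ⟨by rintro ⟨x, rfl⟩ m hm; rw [e1]; exact Nat.find_min x.2 hm,
      fun h => ⟨⟨_, n, rfl⟩, (Nat.find_eq_iff _).2 ⟨rfl, h⟩⟩⟩
  have fnd : ∀ w : ℕ × ℕ → Z × Z, Primrec w → (∀ x, evZ r (w x).2 ≠ 0) → ∃ A : ℕ → ℕ → ℕ,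
      Computable₂ A ∧ ∀ a b (x : K), x = Q (w (a, b)) → e x = A a b := fun w w1 w2 =>
    ⟨fun a b => Nat.find (mem _ (w2 (a, b))), Computable.find (P := fun x n => Q (d n) = Q (w x))
      (ComputablePred.computable_iff.2 ⟨fun x => eqL (crs (d x.2) (w x.1)).1 (crs (d x.2) (w x.1)).2,
        Primrec.to_comp (by fun_prop), funext fun x => propext (qe _ _ (w2 _)).symm⟩)
        fun x => mem _ (w2 x), fun a b x h => by simp only [e, ← h]⟩
  obtain ⟨A, A1, A2⟩ := fnd (fun x => ad (d x.1) (d x.2)) (by fun_prop) fun x => nz _ _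
  obtain ⟨M, M1, M2⟩ := fnd (fun x => mu (d x.1) (d x.2)) (by fun_prop) fun x => nz _ _
  let lt : ℕ → ℕ → Z := fun a b => mulZ (crs (d a) (d b)) (mulZ (d a).2 (d b).2)
  have lt1 : ∀ a b, Q (d a) < Q (d b) ↔ ∃ k, cert (lt a b).1 (lt a b).2 (pre f k) = true :=
    fun a b => by
    rw [← pos, evZ_mul, evZ_mul, evZ_crs, ← sub_pos, div_sub_div _ _ (d2 b) (d2 a), div_pos_iff,
      ← mul_pos_iff, mul_comm (evZ r (d a).1), mul_comm (evZ r (d a).2) (evZ r (d b).2)]
  have lt2 : SE f fun x : ℕ × ℕ => Q (d x.1) < Q (d x.2) :=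
    (se_ex (p := fun (x : ℕ × ℕ) k => cert (lt x.1 x.2).1 (lt x.1 x.2).2 (pre f k) = true)
      (se_test (n := fun x : (ℕ × ℕ) × ℕ => x.2) (by fun_prop) (t := fun x τ =>
        cert (lt x.1.1 x.1.2).1 (lt x.1.1 x.1.2).2 τ) (by fun_prop))).of_eq fun x => (lt1 _ _).symm
  have o1 : ∀ n, n ∈ Ord e ↔ (rg n.unpair.1 && rg n.unpair.2) = true ∧
      Q (d n.unpair.1) < Q (d n.unpair.2) := fun n => by
    rw [Bool.and_eq_true, ← e3, ← e3]
    constructor
    · rintro ⟨a, b, h, rfl⟩
      simpa [e1] using h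
    · rintro ⟨⟨⟨a, ha⟩, b, hb⟩, h⟩
      rw [← ha, ← hb, e1, e1] at h
      exact ⟨a, b, h, by rw [ha, hb, Nat.pair_unpair]⟩
  have o2 : SE f fun x : ℕ × ℕ => chi (Ord e) x.1 = x.2 := se_of_tr (tr_chi
    ((se_and (se_prim (by fun_prop)) (se_comp lt2 Nat.unpair (by fun_prop))).of_eq
      fun n => (o1 n).symm)
    ((se_or (se_prim (f := fun n : ℕ => !(rg n.unpair.1 && rg n.unpair.2) ||
      eqL (crs (d n.unpair.1) (d n.unpair.2)).1 (crs (d n.unpair.1) (d n.unpair.2)).2)
        (by fun_prop)) (se_comp lt2 (fun n : ℕ => (n.unpair.2, n.unpair.1)) (by fun_prop))).of_eq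
      fun n => by
        rw [o1, Bool.or_eq_true, qe _ _ (d2 _), not_and_or, not_lt, le_iff_eq_or_lt,
          Bool.not_eq_true', Bool.not_eq_true, or_assoc, @eq_comm _ (Q _)]))
  refine ⟨K, inferInstance, inferInstance, inferInstance, e, ⟨e2, ComputablePred.computable_iff.2
    ⟨rg, rg1.to_comp, funext fun n => propext (e3 n)⟩, A, M, A1, M1, fun x y =>
      ⟨A2 _ _ _ (by simp [qa, e1]), M2 _ _ _ (by simp [qm, e1])⟩⟩,
    tr_chi (A := jump (Ord e)) (g := chi (J 1)) ?_ (f3 _ (se_trans o2 se_jump)), ?_⟩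
  · exact se_trans f2 (se_trans o2 se_jump)
  rintro L _ _ _ φ e' ⟨g1, -, A, M, A1, M1, g2⟩ g3
  have rK : r ∈ K := (mem (([0, 1], []), ([1], [])) (by simp [one])).imp fun n h =>
    h.trans (by simp [Q, evZ, ev, sum_range_succ])
  have u : Computable fun n : ℕ => e' n := (Computable.nat_rec (f := id) (g := fun _ => e' 0)
    (h := fun _ q => A q.2 (e' 1)) Computable.id (Computable.const _) (A1.comp
      (Computable.snd.comp Computable.snd) (Computable.const _)).to₂).of_eq fun n => by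
    induction n with
    | zero => simp
    | succ n ih => simp only [id] at ih; simp [ih, (g2 _ _).1]
  have u1 : Computable fun τ : List ℕ => e' (φ ⟨r, rK⟩ * (2 ^ τ.length : ℕ)) :=
    (M1.comp (Computable.const _) (u.comp (Primrec.to_comp (by fun_prop)))).of_eq
      fun τ => (g2 _ _).2.symm
  have key : ∀ m q : ℕ, ((m : L) < φ ⟨r, rK⟩ * q ↔ m < r * q) ∧
      (φ ⟨r, rK⟩ * q < m ↔ r * q < m) := fun m q => by
    rw [← map_natCast φ m, ← map_natCast φ q, ← map_mul, map_lt_map_iff, map_lt_map_iff]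
    exact ⟨Iff.rfl, Iff.rfl⟩
  obtain ⟨k, hk⟩ := f4 (fun τ => hi τ < r ∨ r < lo τ) ((re_or
    (re_comp g3.to_re (Primrec₂.natPair.to_comp.comp (u.comp (g := fun τ => val τ + 1)
      (Primrec.to_comp (by fun_prop))) u1)) (re_comp g3.to_re (Primrec₂.natPair.to_comp.comp u1
      (u.comp (g := val) (Primrec.to_comp (by fun_prop)))))).of_eq fun τ => by
      rw [mem_ord g1, mem_ord g1, (key _ _).1, (key _ _).2, hi, lo, div_lt_iff₀ (by positivity),
        lt_div_iff₀ (by positivity)]
      simp) fun σ _ => by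
    by_cases h : r < lo (σ ++ [1, 1])
    · exact ⟨[1, 1], by simp, Or.inr h⟩
    · refine ⟨List.replicate 2 0, by simp, Or.inl (lt_of_lt_of_le ?_ (not_lt.1 h))⟩
      rw [hi_eq, lo_zero, show σ ++ [1, 1] = σ ++ [1] ++ [1] by simp, lo_snoc, lo_snoc]
      simp
  exact hk.elim (hr k).2.not_gt (hr k).1.not_gt

end Pool.Agent.Results.MP_1308e3_lc.LowReal
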